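import Pool.Agent.X111.JD.Ratio

set_option autoImplicit false

/-! The law of the ratio of two values of zeta on a line near the critical line, under the moment measure: the theorem. -/

namespace Pool.Agent.X111.JD

open MeasureTheory ProbabilityTheory Filter Topology
open Pool.Agent.Y755
open Pool.Agent.Y753.NL
open Pool.Agent.Y753.SHR
open Pool.Agent.H306R2 (aF aF_pos)

/-- the moment measure -/
noncomputable def PT (k : ℝ) (δ : ℝ → ℝ) (u0 T : ℝ) : Measure ℝ :=
  (volume.restrict (Set.Icc 0 T)).withDensity fun t => ENNReal.ofReal ((2 * δ T) ^ (k ^ 2) / T * za (δ T) u0 t ^ (2 * k))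

lemma dens_cont {k : ℝ} (hk : 0 < k) {δ : ℝ} (hδ : δ < 1 / 2) (c u0 : ℝ) : Continuous fun t => c * za δ u0 t ^ (2 * k) :=
  continuous_const.mul ((za_cont hδ u0).rpow_const fun t => Or.inr (by positivity))

lemma PT_fin {k : ℝ} (hk : 0 < k) {δ : ℝ → ℝ} {T : ℝ} (hδ : δ T < 1 / 2) (u0 : ℝ) : IsFiniteMeasure (PT k δ u0 T) := by
  unfold PT
  refine isFiniteMeasure_withDensity_ofReal ?_
  exact (((dens_cont hk hδ _ u0).continuousOn.integrableOn_compact isCompact_Icc).2)

lemma PT_integral {E : Type*} [NormedAddCommGroup E] [NormedSpace ℝ E] {k : ℝ} (hk : 0 < k) {δ : ℝ → ℝ} {T : ℝ} (hδ : δ T < 1 / 2)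
    (hδ0 : 0 < δ T) (hT : 0 < T) (u0 : ℝ) (F : ℝ → E) :
    ∫ t, F t ∂(PT k δ u0 T) = ((2 * δ T) ^ (k ^ 2) / T) • ∫ t in Set.Icc 0 T, (za (δ T) u0 t ^ (2 * k)) • F t := by
  unfold PT
  rw [integral_withDensity_eq_integral_toReal_smul]
  · rw [← integral_smul]
    refine integral_congr_ae (Eventually.of_forall fun t => ?_)
    show (ENNReal.ofReal _).toReal • F t = ((2 * δ T) ^ (k ^ 2) / T) • ((za (δ T) u0 t ^ (2 * k)) • F t)
    rw [ENNReal.toReal_ofReal (by have := za_nonneg (δ T) u0 t; positivity), smul_smul]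
  · exact (dens_cont hk hδ _ u0).measurable.ennreal_ofReal
  · exact Eventually.of_forall fun t => ENNReal.ofReal_lt_top

lemma PT_integrable {k : ℝ} (hk : 0 < k) {δ : ℝ → ℝ} {T : ℝ} (hδ : δ T < 1 / 2)
    (hδ0 : 0 < δ T) (hT : 0 < T) (u0 : ℝ) {F : ℝ → ℝ} (h : IntegrableOn (fun t => za (δ T) u0 t ^ (2 * k) * F t) (Set.Icc 0 T)) :
    Integrable F (PT k δ u0 T) := by
  unfold PT
  rw [integrable_withDensity_iff_integrable_smul']
  · have h1 := h.const_mul ((2 * δ T) ^ (k ^ 2) / T)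
    refine h1.congr (Eventually.of_forall fun t => ?_)
    show _ = (ENNReal.ofReal _).toReal • F t
    rw [ENNReal.toReal_ofReal (by have := za_nonneg (δ T) u0 t; positivity), smul_eq_mul]
    ring
  · exact (dens_cont hk hδ _ u0).measurable.ennreal_ofReal
  · exact Eventually.of_forall fun t => ENNReal.ofReal_lt_top

/-- the law, for paths in `(0, 1/2)` -/
theorem law_nice {k : ℝ} (hk : 0 < k) (hk2 : k ≤ 2) {δ : ℝ → ℝ} (hδ : Tendsto δ atTop (𝓝 0))
    (hδL : Tendsto (fun T => δ T * Real.log T) atTop atTop) (hn : ∀ T, 0 < δ T ∧ δ T < 1 / 2) (u0 u1 : ℝ)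
    (G : BoundedContinuousFunction ℂ ℝ) :
    Tendsto (fun T => (2 * δ T) ^ (k ^ 2) / T * ∫ t in Set.Icc 0 T, za (δ T) u0 t ^ (2 * k) * G (zc (δ T) u1 t / zc (δ T) u0 t)) atTop
      (𝓝 (aF k * ∫ z, G (Complex.exp z) ∂(cg (mu k (u1 - u0)) (sd (u1 - u0)) : Measure ℂ))) := by
  obtain ⟨R, hR⟩ : ∃ R : Set ℝ, R = {r | 0 < r} ∩ ({k / 2} ∪ ((Set.range fun x : ℕ × ℕ => (x.1 : ℝ) / x.2) ∪ (Set.range fun x : ℕ × ℕ => k - (x.1 : ℝ) / x.2))) :=
    ⟨_, rfl⟩
  have hRc : R.Countable := by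
    rw [hR]
    exact (((Set.countable_singleton _).union ((Set.countable_range _).union (Set.countable_range _)))).mono Set.inter_subset_right
  have hR0 : ∀ r ∈ R, 0 < r := fun r hr => by rw [hR] at hr; exact hr.1
  obtain ⟨E, w, hE, -, hw, hm⟩ := mixed_small Pool.Agent.Y901.SHR.done Pool.Agent.Y753.SHR.star hδ hδL le_rfl
    (S := {u0, u1}) (R := R) ((Set.countable_singleton _).insert _) hRc hR0
  have hkapR : ∀ N p : ℕ, 0 < N → (p : ℝ) < k * N → ∀ j, kap k N p j ∈ R := by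
    intro N p hN hp j
    have hN0 : (0:ℝ) < N := by exact_mod_cast hN
    rw [hR]
    unfold kap
    split_ifs with h
    · fin_cases j
      · exact ⟨by show 0 < k / 2; positivity, Or.inl rfl⟩
      · exact ⟨by show 0 < k / 2; positivity, Or.inl rfl⟩
    · have hp0 : (0:ℝ) < p := by exact_mod_cast Nat.pos_of_ne_zero h
      fin_cases j
      · refine ⟨?_, Or.inr (Or.inr ⟨(p, N), rfl⟩)⟩
        show 0 < k - p / N
        rw [sub_pos, div_lt_iff₀ hN0]
        exact hp
      · refine ⟨?_, Or.inr (Or.inl ⟨(p, N), rfl⟩)⟩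
        show (0:ℝ) < p / N
        positivity
  have hptsS : ∀ p : ℕ, ∀ j, pts u0 u1 p j ∈ ({u0, u1} : Set ℝ) := by
    intro p j
    unfold pts
    split_ifs <;> fin_cases j <;> simp
  obtain ⟨X, hX⟩ : ∃ X : ℝ → ℝ → ℂ, X = fun T t => w T (t + u1 * δ T) - w T (t + u0 * δ T) := ⟨_, rfl⟩
  have hXm : ∀ T, Measurable (X T) := by
    intro T
    rw [hX]
    have h1 := (hE T).2.2.1
    exact (h1.comp (measurable_id.add_const _)).sub (h1.comp (measurable_id.add_const _))
  -- the values of zeta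
  have hval : ∀ᶠ T in atTop, ∀ᵐ t : ℝ, Complex.exp (w T (t + u0 * δ T)) = zc (δ T) u0 t ∧ Complex.exp (w T (t + u1 * δ T)) = zc (δ T) u1 t ∧
      zc (δ T) u0 t ≠ 0 := by
    filter_upwards [hw] with T hw
    filter_upwards [zeros_ae (δ T) (u0 * δ T), zeros_ae (δ T) (u1 * δ T)] with t z0 z1
    exact ⟨hw _ z0, hw _ z1, z0⟩
  have hre0 : ∀ T t, Complex.exp (w T (t + u0 * δ T)) = zc (δ T) u0 t → Real.exp ((w T (t + u0 * δ T)).re) = za (δ T) u0 t := by
    intro T t h
    rw [← zc_norm, ← h, Complex.norm_exp]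
  have hre1 : ∀ T t, Complex.exp (w T (t + u1 * δ T)) = zc (δ T) u1 t → Real.exp ((w T (t + u1 * δ T)).re) = za (δ T) u1 t := by
    intro T t h
    rw [← zc_norm, ← h, Complex.norm_exp]
  have hlaw := law_of_mixed (P := fun T => PT k δ u0 T) (fun T => PT_fin hk (hn T).2 u0) hXm hk (aF_pos hk)
    (ρ := cg (mu k (u1 - u0)) (sd (u1 - u0))) (cg_int _ _) ?_ ?_ G
  · refine hlaw.congr' ?_
    filter_upwards [hval, eventually_gt_atTop 0] with T h1 hT
    rw [PT_integral hk (hn T).2 (hn T).1 hT, smul_eq_mul]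
    congr 1
    refine integral_congr_ae (ae_restrict_of_ae ?_)
    filter_upwards [h1] with t ht
    show za (δ T) u0 t ^ (2 * k) * G (Complex.exp (X T t)) = za (δ T) u0 t ^ (2 * k) * G (zc (δ T) u1 t / zc (δ T) u0 t)
    rw [hX]
    simp only
    rw [Complex.exp_sub, ht.1, ht.2.1]
  · -- integrability
    intro N p hN hp
    have hN0 : (0:ℝ) < N := by exact_mod_cast hN
    filter_upwards [hval, eventually_gt_atTop 0] with T h1 hT
    refine PT_integrable hk (hn T).2 (hn T).1 hT u0 ?_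
    have hpk : (p : ℝ) / N < k := by rw [div_lt_iff₀ hN0]; exact hp
    have hc : Continuous fun t => za (δ T) u0 t ^ (2 * k - 2 * (p / N)) * za (δ T) u1 t ^ (2 * (p / N) : ℝ) :=
      ((za_cont (hn T).2 u0).rpow_const fun t => Or.inr (by linarith)).mul ((za_cont (hn T).2 u1).rpow_const fun t => Or.inr (by positivity))
    refine (hc.continuousOn.integrableOn_compact isCompact_Icc).congr (ae_restrict_of_ae ?_)
    filter_upwards [h1] with t ht
    have f0 := hre0 T t ht.1
    have f1 := hre1 T t ht.2.1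
    rw [hX]
    simp only
    rw [Complex.norm_exp, ← f0, ← f1, ← Real.exp_mul, ← Real.exp_mul, ← Real.exp_mul, ← Real.exp_add, ← Real.exp_nat_mul, ← Real.exp_add]
    congr 1
    have e1 : ((p : ℂ) / N * (w T (t + u1 * δ T) - w T (t + u0 * δ T))).re = p / N * ((w T (t + u1 * δ T)).re - (w T (t + u0 * δ T)).re) := by
      have : ((p : ℂ) / N) = ((p / N : ℝ) : ℂ) := by push_cast; rfl
      rw [this, Complex.re_ofReal_mul, Complex.sub_re]
    rw [e1]
    push_cast
    ring
  · -- the mixed moments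
    intro N p q hN hp hq
    have hN0 : (0:ℝ) < N := by exact_mod_cast hN
    have h1 := (hm 2 2 (kap k N p) (pts u0 u1 p) (kap k N q) (pts u0 u1 q) k (by norm_num) (by norm_num) (kap_sum k N p) (kap_sum k N q)
      (hkapR N p hN hp) (hptsS p) (hkapR N q hN hq) (hptsS q)).2 hk2
    rw [prod_pairs] at h1
    have e1 : ∫ z, ee N p q z ∂(cg (mu k (u1 - u0)) (sd (u1 - u0)) : Measure ℂ) = Complex.exp (((p / N : ℝ) : ℂ) * mu k (u1 - u0) +
        ((q / N : ℝ) : ℂ) * (starRingEnd ℂ) (mu k (u1 - u0)) + (sd (u1 - u0) : ℂ) ^ 2 * ((p / N : ℝ) : ℂ) * ((q / N : ℝ) : ℂ)) := by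
      rw [← cg_mixed]
      congr 1
      funext z
      unfold ee
      push_cast
      rfl
    rw [e1]
    refine h1.congr' ?_
    filter_upwards [hval, eventually_gt_atTop 0] with T h1 hT
    rw [PT_integral hk (hn T).2 (hn T).1 hT, Complex.real_smul]
    congr 1
    refine integral_congr_ae (ae_restrict_of_ae ?_)
    filter_upwards [h1] with t ht
    have f0 := hre0 T t ht.1
    show zr (w T) (δ T) (kap k N p) (pts u0 u1 p) t * (starRingEnd ℂ) (zr (w T) (δ T) (kap k N q) (pts u0 u1 q) t) =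
      (za (δ T) u0 t ^ (2 * k)) • ee N p q (X T t)
    have ez : ∀ m : ℕ, zr (w T) (δ T) (kap k N m) (pts u0 u1 m) t =
        Complex.exp (k * w T (t + u0 * δ T) + m / N * (w T (t + u1 * δ T) - w T (t + u0 * δ T))) := by
      intro m
      unfold zr kap pts
      split_ifs with h
      · simp only [Fin.prod_univ_two, Matrix.cons_val_zero, Matrix.cons_val_one]
        rw [← Complex.exp_add, h]
        congr 1
        push_cast
        ring
      · simp only [Fin.prod_univ_two, Matrix.cons_val_zero, Matrix.cons_val_one]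
        rw [← Complex.exp_add]
        congr 1
        push_cast
        ring
    rw [ez, ez, ← f0, ← Real.exp_mul, Complex.real_smul, hX]
    unfold ee
    simp only
    rw [← Complex.exp_conj, ← Complex.exp_conj, ← Complex.exp_add, ← Complex.exp_add, Complex.ofReal_exp, ← Complex.exp_add]
    congr 1
    have e2 : (((w T (t + u0 * δ T)).re : ℝ) : ℂ) = (w T (t + u0 * δ T) + (starRingEnd ℂ) (w T (t + u0 * δ T))) / 2 := by
      rw [Complex.add_conj]
      push_cast
      ring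
    push_cast
    rw [e2]
    simp only [map_add, map_mul, map_sub, map_div₀, Complex.conj_natCast, Complex.conj_ofReal]
    ring

/-- the law -/
theorem law {k : ℝ} (hk : 0 < k) (hk2 : k ≤ 2) {δ : ℝ → ℝ} (hδ : Tendsto δ atTop (𝓝 0))
    (hδL : Tendsto (fun T => δ T * Real.log T) atTop atTop) (u0 u1 : ℝ) (G : BoundedContinuousFunction ℂ ℝ) :
    Tendsto (fun T => (2 * δ T) ^ (k ^ 2) / T * ∫ t in Set.Icc 0 T, za (δ T) u0 t ^ (2 * k) * G (zc (δ T) u1 t / zc (δ T) u0 t)) atTop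
      (𝓝 (aF k * ∫ z, G (Complex.exp z) ∂(cg (mu k (u1 - u0)) (sd (u1 - u0)) : Measure ℂ))) := by
  classical
  obtain ⟨δ', hδ'⟩ : ∃ δ' : ℝ → ℝ, δ' = fun T => if 0 < δ T ∧ δ T < 1 / 2 then δ T else 1 / 4 := ⟨_, rfl⟩
  have hn : ∀ T, 0 < δ' T ∧ δ' T < 1 / 2 := by
    intro T
    rw [hδ']
    dsimp only
    split_ifs with h
    · exact h
    · norm_num
  have he : ∀ᶠ T in atTop, δ T = δ' T := by
    filter_upwards [pos_path hδL, hδ.eventually (gt_mem_nhds (show (0:ℝ) < 1 / 2 by norm_num))] with T h1 h2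
    rw [hδ']
    dsimp only
    rw [if_pos ⟨h1, h2⟩]
  have h1 := law_nice hk hk2 (δ := δ') (hδ.congr' he) (hδL.congr' (he.mono fun T hT => by rw [hT])) hn u0 u1 G
  refine h1.congr' ?_
  filter_upwards [he] with T hT
  rw [hT]

end Pool.Agent.X111.JD
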