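import Pool.Agent.X111.JD.Law

set_option autoImplicit false

/-! Complex Gaussian laws. -/

namespace Pool.Agent.X111.JD

open MeasureTheory ProbabilityTheory Filter Topology

/-- the centred normal law of variance `1/2` -/
noncomputable def ga : Measure ℝ := gaussianReal 0 (1 / 2)

instance : IsProbabilityMeasure ga := by unfold ga; infer_instance

lemma ga_exp (z : ℂ) : ∫ x : ℝ, Complex.exp (z * x) ∂ga = Complex.exp (z ^ 2 / 4) := by
  have h1 := complexMGF_gaussianReal (μ := 0) (v := 1 / 2) (p := gaussianReal 0 (1 / 2)) (X := id) (by rw [Measure.map_id]) z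
  unfold complexMGF at h1
  unfold ga
  refine Eq.trans ?_ (h1.trans ?_)
  · rfl
  · congr 1
    push_cast
    ring

lemma ga_int (b : ℝ) : Integrable (fun x : ℝ => Real.exp (b * x)) ga := by
  unfold ga
  exact integrable_exp_mul_gaussianReal b

lemma ga_int_abs (b : ℝ) : Integrable (fun x : ℝ => Real.exp (b * |x|)) ga := by
  refine ((ga_int b).add (ga_int (-b))).mono (by fun_prop) (Eventually.of_forall fun x => ?_)
  simp only [Pi.add_apply]
  rw [Real.norm_of_nonneg (Real.exp_pos _).le, Real.norm_of_nonneg (by positivity)]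
  rcases abs_cases x with h | h
  · rw [h.1]
    linarith [Real.exp_pos (-b * x)]
  · rw [h.1]
    have : b * -x = -b * x := by ring
    rw [this]
    linarith [Real.exp_pos (b * x)]

/-- the complex variable -/
noncomputable def nn (p : ℝ × ℝ) : ℂ := p.1 + p.2 * Complex.I

lemma nn_cont : Continuous nn := by unfold nn; fun_prop

lemma nn_le (p : ℝ × ℝ) : ‖nn p‖ ≤ |p.1| + |p.2| := by
  unfold nn
  refine (norm_add_le _ _).trans ?_
  rw [norm_mul, Complex.norm_I, mul_one, Complex.norm_real, Complex.norm_real, Real.norm_eq_abs, Real.norm_eq_abs]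

lemma nn_int (c : ℝ) (hc : 0 ≤ c) : Integrable (fun p : ℝ × ℝ => Real.exp (c * ‖nn p‖)) (ga.prod ga) := by
  refine ((ga_int_abs c).mul_prod (ga_int_abs c)).mono ?_ (Eventually.of_forall fun p => ?_)
  · exact (Real.continuous_exp.comp (continuous_const.mul nn_cont.norm)).aestronglyMeasurable
  · rw [Real.norm_of_nonneg (Real.exp_pos _).le, Real.norm_of_nonneg (by positivity), ← Real.exp_add, ← mul_add]
    exact Real.exp_le_exp.mpr (mul_le_mul_of_nonneg_left (nn_le p) hc)

/-- the complex Gaussian law with mean `m` and variance `r²` -/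
noncomputable def cg (m : ℂ) (r : ℝ) : ProbabilityMeasure ℂ :=
  ⟨Measure.map (fun p : ℝ × ℝ => m + r * nn p) (ga.prod ga),
    Measure.isProbabilityMeasure_map (by
      exact (continuous_const.add (continuous_const.mul nn_cont)).measurable.aemeasurable)⟩

lemma cg_integral {E : Type*} [NormedAddCommGroup E] [NormedSpace ℝ E] (m : ℂ) (r : ℝ) {F : ℂ → E} (hF : Continuous F) :
    ∫ z, F z ∂(cg m r : Measure ℂ) = ∫ p, F (m + r * nn p) ∂(ga.prod ga) := by
  have hm : Measurable (fun p : ℝ × ℝ => m + r * nn p) := (continuous_const.add (continuous_const.mul nn_cont)).measurable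
  show ∫ z, F z ∂(Measure.map (fun p : ℝ × ℝ => m + r * nn p) (ga.prod ga)) = _
  rw [integral_map hm.aemeasurable hF.aestronglyMeasurable]

lemma cg_int (m : ℂ) (r c : ℝ) : Integrable (fun z : ℂ => Real.exp (c * ‖z‖)) (cg m r : Measure ℂ) := by
  show Integrable (fun z : ℂ => Real.exp (c * ‖z‖)) (Measure.map (fun p : ℝ × ℝ => m + r * nn p) (ga.prod ga))
  have hm : Measurable (fun p : ℝ × ℝ => m + r * nn p) := (continuous_const.add (continuous_const.mul nn_cont)).measurable
  have hc : Continuous (fun z : ℂ => Real.exp (c * ‖z‖)) := by fun_prop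
  rw [integrable_map_measure hc.aestronglyMeasurable hm.aemeasurable]
  refine ((nn_int (|c| * |r|) (by positivity)).const_mul (Real.exp (|c| * ‖m‖))).mono (hc.measurable.comp hm).aestronglyMeasurable
    (Eventually.of_forall fun p => ?_)
  simp only [Function.comp_apply]
  rw [Real.norm_of_nonneg (Real.exp_pos _).le, Real.norm_of_nonneg (by positivity), ← Real.exp_add]
  refine Real.exp_le_exp.mpr ?_
  have h1 : ‖m + r * nn p‖ ≤ ‖m‖ + |r| * ‖nn p‖ := by
    refine (norm_add_le _ _).trans ?_
    rw [norm_mul, Complex.norm_real, Real.norm_eq_abs]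
  calc c * ‖m + r * nn p‖ ≤ |c| * ‖m + r * nn p‖ := mul_le_mul_of_nonneg_right (le_abs_self c) (norm_nonneg _)
    _ ≤ |c| * (‖m‖ + |r| * ‖nn p‖) := mul_le_mul_of_nonneg_left h1 (abs_nonneg _)
    _ = |c| * ‖m‖ + |c| * |r| * ‖nn p‖ := by ring

/-- the mixed exponential moments -/
lemma cg_mixed (m : ℂ) (r x y : ℝ) : ∫ z, Complex.exp (x * z) * (starRingEnd ℂ) (Complex.exp (y * z)) ∂(cg m r : Measure ℂ) =
    Complex.exp (x * m + y * (starRingEnd ℂ) m + (r : ℂ) ^ 2 * x * y) := by
  rw [cg_integral m r (F := fun z => Complex.exp (x * z) * (starRingEnd ℂ) (Complex.exp (y * z))) (by fun_prop)]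
  have e1 : ∀ p : ℝ × ℝ, Complex.exp (x * (m + r * nn p)) * (starRingEnd ℂ) (Complex.exp (y * (m + r * nn p))) =
      Complex.exp (x * m + y * (starRingEnd ℂ) m) * (Complex.exp ((r * (x + y)) * p.1) * Complex.exp ((Complex.I * r * (x - y)) * p.2)) := by
    intro p
    rw [← Complex.exp_conj, ← Complex.exp_add, ← Complex.exp_add, ← Complex.exp_add]
    congr 1
    unfold nn
    simp only [map_add, map_mul, Complex.conj_ofReal, Complex.conj_I]
    ring
  simp_rw [e1]
  rw [integral_const_mul, integral_prod_mul (fun u : ℝ => Complex.exp ((r * (x + y)) * u)) (fun u : ℝ => Complex.exp ((Complex.I * r * (x - y)) * u)),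
    ga_exp, ga_exp, ← Complex.exp_add, ← Complex.exp_add]
  congr 1
  have hI : Complex.I ^ 2 = -1 := Complex.I_sq
  ring_nf
  rw [hI]
  ring

end Pool.Agent.X111.JD
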