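import Pool.Agent.X111.JD.Mom

set_option autoImplicit false

/-! The law of the exponential of a complex variable from its mixed exponential moments of small real exponents. -/

namespace Pool.Agent.X111.JD

open MeasureTheory ProbabilityTheory Filter Topology

/-- `N (exp (z / N) - 1)` -/
noncomputable def VN (N : ℕ) (z : ℂ) : ℂ := N * (Complex.exp (z / N) - 1)

lemma VN_cont (N : ℕ) : Continuous (VN N) := by
  unfold VN
  fun_prop

/-- the exponential monomials -/
noncomputable def ee (N p q : ℕ) (z : ℂ) : ℂ := Complex.exp (p / N * z) * (starRingEnd ℂ) (Complex.exp (q / N * z))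

lemma ee_cont (N p q : ℕ) : Continuous (ee N p q) := by
  unfold ee
  exact (Complex.continuous_exp.comp (continuous_const.mul continuous_id)).mul
    (Complex.continuous_conj.comp (Complex.continuous_exp.comp (continuous_const.mul continuous_id)))

/-- the coefficients -/
noncomputable def cf (N i j p q : ℕ) : ℂ := (N : ℂ) ^ (i + j) * ((-1) ^ (i - p) * i.choose p) * ((-1) ^ (j - q) * j.choose q)

lemma exp_pow_div (N p : ℕ) (z : ℂ) : Complex.exp (z / N) ^ p = Complex.exp (p / N * z) := by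
  rw [← Complex.exp_nat_mul]
  congr 1
  ring

lemma mo_VN (N i j : ℕ) (z : ℂ) : mo i j (VN N z) =
    ∑ p ∈ Finset.range (i + 1), ∑ q ∈ Finset.range (j + 1), cf N i j p q * ee N p q z := by
  have h1 : ∀ m : ℕ, VN N z ^ m = (N : ℂ) ^ m * ∑ p ∈ Finset.range (m + 1), (-1) ^ (m - p) * m.choose p * Complex.exp (p / N * z) := by
    intro m
    unfold VN
    rw [mul_pow, sub_eq_add_neg, add_pow]
    congr 1
    refine Finset.sum_congr rfl fun p _ => ?_
    rw [exp_pow_div]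
    ring
  unfold mo
  rw [h1 i, ← map_pow, h1 j, map_mul, map_sum, mul_mul_mul_comm, Finset.sum_mul_sum, Finset.mul_sum]
  refine Finset.sum_congr rfl fun p _ => ?_
  rw [Finset.mul_sum]
  refine Finset.sum_congr rfl fun q _ => ?_
  unfold cf ee
  simp only [map_mul, map_pow, Complex.conj_natCast, map_neg, map_one]
  ring

lemma norm_sub_one_le (z : ℂ) : ‖Complex.exp z - 1‖ ≤ ‖z‖ * Real.exp ‖z‖ := by
  have h1 := Complex.norm_exp_sub_sum_le_norm_mul_exp z 1
  simpa using h1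

lemma VN_norm {N : ℕ} (hN : 1 ≤ N) (z : ℂ) : ‖VN N z‖ ≤ ‖z‖ * Real.exp ‖z‖ := by
  unfold VN
  have hN0 : (0:ℝ) < N := by exact_mod_cast hN
  have hN1 : (1:ℝ) ≤ N := by exact_mod_cast hN
  rw [norm_mul, Complex.norm_natCast]
  have h1 := norm_sub_one_le (z / N)
  rw [norm_div, Complex.norm_natCast] at h1
  calc (N : ℝ) * ‖Complex.exp (z / N) - 1‖ ≤ N * (‖z‖ / N * Real.exp (‖z‖ / N)) := mul_le_mul_of_nonneg_left h1 hN0.le
    _ = ‖z‖ * Real.exp (‖z‖ / N) := by field_simp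
    _ ≤ ‖z‖ * Real.exp ‖z‖ := by
        refine mul_le_mul_of_nonneg_left (Real.exp_le_exp.mpr ?_) (norm_nonneg _)
        exact div_le_self (norm_nonneg _) hN1

lemma VN_lim (z : ℂ) : Tendsto (fun N : ℕ => VN (N + 1) z) atTop (𝓝 z) := by
  have h1 : Tendsto (fun N : ℕ => ‖VN (N + 1) z - z‖) atTop (𝓝 0) := by
    have h2 : ∀ N : ℕ, ‖VN (N + 1) z - z‖ ≤ ‖z‖ ^ 2 * Real.exp ‖z‖ * (1 / ((N : ℝ) + 1)) := by
      intro N
      have hN0 : (0:ℝ) < (N : ℝ) + 1 := by positivity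
      have hNc : ((N : ℂ) + 1) ≠ 0 := by exact_mod_cast Nat.succ_ne_zero N
      have h3 := Complex.norm_exp_sub_sum_le_norm_mul_exp (z / ((N + 1 : ℕ) : ℂ)) 2
      have e1 : VN (N + 1) z - z = ((N + 1 : ℕ) : ℂ) * (Complex.exp (z / ((N + 1 : ℕ) : ℂ)) - ∑ m ∈ Finset.range 2, (z / ((N + 1 : ℕ) : ℂ)) ^ m / (m.factorial : ℂ)) := by
        unfold VN
        simp only [Finset.sum_range_succ, Finset.range_zero, Finset.sum_empty, pow_zero, Nat.factorial, Nat.cast_one, div_one,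
          pow_one, zero_add, mul_one]
        push_cast
        field_simp
        ring
      have e2 : ‖z / ((N + 1 : ℕ) : ℂ)‖ = ‖z‖ / ((N : ℝ) + 1) := by
        rw [norm_div, Complex.norm_natCast]
        push_cast
        rfl
      rw [e1, norm_mul, Complex.norm_natCast]
      rw [e2] at h3
      have h4 : Real.exp (‖z‖ / ((N : ℝ) + 1)) ≤ Real.exp ‖z‖ :=
        Real.exp_le_exp.mpr (div_le_self (norm_nonneg _) (by linarith [(Nat.cast_nonneg N : (0:ℝ) ≤ N)]))
      push_cast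
      push_cast at h3
      calc ((N : ℝ) + 1) * _ ≤ ((N : ℝ) + 1) * ((‖z‖ / ((N : ℝ) + 1)) ^ 2 * Real.exp (‖z‖ / ((N : ℝ) + 1))) :=
            mul_le_mul_of_nonneg_left h3 hN0.le
        _ ≤ ((N : ℝ) + 1) * ((‖z‖ / ((N : ℝ) + 1)) ^ 2 * Real.exp ‖z‖) := by gcongr
        _ = ‖z‖ ^ 2 * Real.exp ‖z‖ * (1 / ((N : ℝ) + 1)) := by field_simp
    have h5 : Tendsto (fun N : ℕ => ‖z‖ ^ 2 * Real.exp ‖z‖ * (1 / ((N : ℝ) + 1))) atTop (𝓝 0) := by
      have := tendsto_one_div_add_atTop_nhds_zero_nat (𝕜 := ℝ) |>.const_mul (‖z‖ ^ 2 * Real.exp ‖z‖)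
      rwa [mul_zero] at this
    exact squeeze_zero (fun _ => norm_nonneg _) h2 h5
  exact tendsto_iff_norm_sub_tendsto_zero.mpr h1

section
variable {ρ : ProbabilityMeasure ℂ} (hρ : ∀ c : ℝ, Integrable (fun z : ℂ => Real.exp (c * ‖z‖)) (ρ : Measure ℂ))

include hρ

lemma ee_int (N p q : ℕ) : Integrable (ee N p q) (ρ : Measure ℂ) := by
  refine (hρ (p / N + q / N)).mono (ee_cont N p q).aestronglyMeasurable (Eventually.of_forall fun z => ?_)
  rw [Real.norm_of_nonneg (Real.exp_pos _).le]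
  unfold ee
  rw [norm_mul, RCLike.norm_conj, Complex.norm_exp, Complex.norm_exp, ← Real.exp_add]
  refine Real.exp_le_exp.mpr ?_
  have h1 : ∀ m : ℕ, ((m : ℂ) / N * z).re ≤ m / N * ‖z‖ := by
    intro m
    refine (Complex.re_le_norm _).trans (le_of_eq ?_)
    rw [norm_mul, norm_div, Complex.norm_natCast, Complex.norm_natCast]
  have h2 := h1 p
  have h3 := h1 q
  rw [add_mul]
  linarith

lemma mo_lim (i j : ℕ) : Tendsto (fun N : ℕ => ∫ z, mo i j (VN (N + 1) z) ∂(ρ : Measure ℂ)) atTop (𝓝 (∫ z, mo i j z ∂(ρ : Measure ℂ))) := by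
  refine tendsto_integral_of_dominated_convergence (fun z => Real.exp ((2 * (i + j) : ℝ) * ‖z‖)) ?_ (hρ _) ?_ ?_
  · intro N
    exact ((mo_cont i j).comp (VN_cont (N + 1))).aestronglyMeasurable
  · intro N
    refine Eventually.of_forall fun z => ?_
    rw [mo_norm]
    have h1 := VN_norm (Nat.le_add_left 1 N) z
    have h2 : ‖z‖ * Real.exp ‖z‖ ≤ Real.exp (2 * ‖z‖) := by
      have h3 := Real.add_one_le_exp ‖z‖
      calc ‖z‖ * Real.exp ‖z‖ ≤ Real.exp ‖z‖ * Real.exp ‖z‖ := mul_le_mul_of_nonneg_right (by linarith) (Real.exp_pos _).le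
        _ = Real.exp (2 * ‖z‖) := by rw [← Real.exp_add]; ring_nf
    calc ‖VN (N + 1) z‖ ^ (i + j) ≤ (Real.exp (2 * ‖z‖)) ^ (i + j) := pow_le_pow_left₀ (norm_nonneg _) (h1.trans h2) _
      _ = Real.exp ((2 * (i + j) : ℝ) * ‖z‖) := by
          rw [← Real.exp_nat_mul]
          congr 1
          push_cast
          ring
  · exact Eventually.of_forall fun z => ((mo_cont i j).tendsto z).comp (VN_lim z)

end

/-- the powers `(1 + v / N) ^ N` -/
lemma pow_unif {R : ℝ} (hR : 0 < R) {G : ℂ → ℝ} (hG : Continuous G) {ε : ℝ} (hε : 0 < ε) :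
    ∀ᶠ N : ℕ in atTop, ∀ v : ℂ, ‖v‖ ≤ R → |G ((1 + v / ((N + 1 : ℕ) : ℂ)) ^ (N + 1)) - G (Complex.exp v)| ≤ ε := by
  -- uniform continuity
  have hu := (isCompact_closedBall (0:ℂ) (Real.exp (R + 1))).uniformContinuousOn_of_continuous hG.continuousOn
  rw [Metric.uniformContinuousOn_iff] at hu
  obtain ⟨η, hη, hu⟩ := hu ε hε
  -- smallness
  have hlim : Tendsto (fun N : ℕ => R ^ 2 * (1 / ((N : ℝ) + 1))) atTop (𝓝 0) := by
    have := tendsto_one_div_add_atTop_nhds_zero_nat (𝕜 := ℝ) |>.const_mul (R ^ 2)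
    rwa [mul_zero] at this
  have hlim2 : Tendsto (fun N : ℕ => (2 * R) * (1 / ((N : ℝ) + 1))) atTop (𝓝 0) := by
    have := tendsto_one_div_add_atTop_nhds_zero_nat (𝕜 := ℝ) |>.const_mul (2 * R)
    rwa [mul_zero] at this
  filter_upwards [hlim.eventually (gt_mem_nhds one_pos), hlim2.eventually (gt_mem_nhds one_pos),
    hlim.eventually (gt_mem_nhds (show (0:ℝ) < η / (Real.exp R * Real.exp 1) by positivity))] with N h1 h2 h3 v hv
  have hN0 : (0:ℝ) < (N : ℝ) + 1 := by positivity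
  have hNc : ((N : ℂ) + 1) ≠ 0 := by exact_mod_cast Nat.succ_ne_zero N
  obtain ⟨x, hx⟩ : ∃ x : ℂ, x = v / ((N + 1 : ℕ) : ℂ) := ⟨_, rfl⟩
  have hxn : ‖x‖ = ‖v‖ / ((N : ℝ) + 1) := by
    rw [hx, norm_div, Complex.norm_natCast]
    push_cast
    rfl
  have hx2 : ‖x‖ ≤ 1 / 2 := by
    rw [hxn, div_le_iff₀ hN0]
    rw [mul_one_div, div_lt_one hN0] at h2
    linarith
  have hx1 : 1 + x ≠ 0 := by
    intro h
    have : x = -1 := by linear_combination h
    rw [this, norm_neg, norm_one] at hx2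
    norm_num at hx2
  have hlog : ‖Complex.log (1 + x) - x‖ ≤ ‖x‖ ^ 2 := by
    have h4 := Complex.norm_log_one_add_sub_self_le (z := x) (by linarith)
    refine h4.trans ?_
    have h5 : (1 - ‖x‖)⁻¹ ≤ 2 := by
      rw [inv_le_comm₀ (by linarith) (by norm_num)]
      linarith
    have h6 : 0 ≤ ‖x‖ ^ 2 := by positivity
    nlinarith
  obtain ⟨w, hw⟩ : ∃ w : ℂ, w = ((N + 1 : ℕ) : ℂ) * Complex.log (1 + x) := ⟨_, rfl⟩
  have hpow : (1 + x) ^ (N + 1) = Complex.exp w := by
    rw [hw, Complex.exp_nat_mul, Complex.exp_log hx1]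
  have hwv : ‖w - v‖ ≤ R ^ 2 * (1 / ((N : ℝ) + 1)) := by
    have e1 : w - v = ((N + 1 : ℕ) : ℂ) * (Complex.log (1 + x) - x) := by
      rw [hw, mul_sub, hx]
      congr 1
      push_cast
      field_simp
    rw [e1, norm_mul, Complex.norm_natCast]
    push_cast
    calc ((N : ℝ) + 1) * ‖Complex.log (1 + x) - x‖ ≤ ((N : ℝ) + 1) * ‖x‖ ^ 2 := mul_le_mul_of_nonneg_left hlog hN0.le
      _ = ‖v‖ ^ 2 * (1 / ((N : ℝ) + 1)) := by rw [hxn]; field_simp
      _ ≤ R ^ 2 * (1 / ((N : ℝ) + 1)) := by gcongr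
  have hexp : ‖Complex.exp w - Complex.exp v‖ ≤ Real.exp R * Real.exp 1 * (R ^ 2 * (1 / ((N : ℝ) + 1))) := by
    have e1 : Complex.exp w - Complex.exp v = Complex.exp v * (Complex.exp (w - v) - 1) := by
      rw [mul_sub, ← Complex.exp_add]
      ring_nf
    rw [e1, norm_mul]
    have h4 : ‖Complex.exp v‖ ≤ Real.exp R := by
      rw [Complex.norm_exp]
      exact Real.exp_le_exp.mpr ((Complex.re_le_norm v).trans hv)
    have h5 := norm_sub_one_le (w - v)
    have h6 : Real.exp ‖w - v‖ ≤ Real.exp 1 := Real.exp_le_exp.mpr (by linarith)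
    calc ‖Complex.exp v‖ * ‖Complex.exp (w - v) - 1‖ ≤ Real.exp R * (‖w - v‖ * Real.exp ‖w - v‖) := by gcongr
      _ ≤ Real.exp R * ((R ^ 2 * (1 / ((N : ℝ) + 1))) * Real.exp 1) := by gcongr
      _ = _ := by ring
  have hsmall : ‖Complex.exp w - Complex.exp v‖ < η := by
    refine lt_of_le_of_lt hexp ?_
    rw [lt_div_iff₀ (by positivity)] at h3
    linarith
  have hb1 : Complex.exp v ∈ Metric.closedBall (0:ℂ) (Real.exp (R + 1)) := by
    rw [mem_closedBall_zero_iff, Complex.norm_exp]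
    exact Real.exp_le_exp.mpr ((Complex.re_le_norm v).trans (by linarith))
  have hb2 : Complex.exp w ∈ Metric.closedBall (0:ℂ) (Real.exp (R + 1)) := by
    rw [mem_closedBall_zero_iff, Complex.norm_exp]
    refine Real.exp_le_exp.mpr ((Complex.re_le_norm w).trans ?_)
    have : ‖w‖ ≤ ‖w - v‖ + ‖v‖ := by
      have := norm_add_le (w - v) v
      rwa [sub_add_cancel] at this
    linarith
  have h7 := hu _ hb2 _ hb1 (by rw [dist_eq_norm]; exact hsmall)
  rw [Real.dist_eq] at h7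
  rw [← hx, hpow]
  exact h7.le

/-- the cutoff -/
noncomputable def chi (K : ℝ) (v : ℂ) : ℝ := min 1 (max 0 (K + 1 - ‖v‖))

lemma chi_cont (K : ℝ) : Continuous (chi K) := by
  unfold chi
  fun_prop

lemma chi_nn (K : ℝ) (v : ℂ) : 0 ≤ chi K v := le_min zero_le_one (le_max_left _ _)

lemma chi_le (K : ℝ) (v : ℂ) : chi K v ≤ 1 := min_le_left _ _

lemma chi_zero {K : ℝ} {v : ℂ} (h : K + 1 ≤ ‖v‖) : chi K v = 0 := by
  unfold chi
  rw [max_eq_left (by linarith), min_eq_right (by norm_num)]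

lemma chi_lim (v : ℂ) : Tendsto (fun K : ℕ => chi K v) atTop (𝓝 1) := by
  obtain ⟨K0, hK0⟩ := exists_nat_ge ‖v‖
  refine tendsto_const_nhds.congr' ?_
  filter_upwards [eventually_ge_atTop K0] with K hK
  have : (K0 : ℝ) ≤ K := by exact_mod_cast hK
  unfold chi
  rw [max_eq_right (by linarith), min_eq_left (by linarith)]

/-- the mapping theorem -/
theorem map_lim {μ : ℕ → ProbabilityMeasure ℂ} {ρ : ProbabilityMeasure ℂ} (h : Tendsto μ atTop (𝓝 ρ))
    (G : BoundedContinuousFunction ℂ ℝ) :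
    Tendsto (fun N : ℕ => ∫ v, G ((1 + v / ((N + 1 : ℕ) : ℂ)) ^ (N + 1)) ∂(μ N : Measure ℂ)) atTop (𝓝 (∫ v, G (Complex.exp v) ∂(ρ : Measure ℂ))) := by
  rw [ProbabilityMeasure.tendsto_iff_forall_integral_tendsto] at h
  -- the limit of the exponentials
  have hE : Tendsto (fun N : ℕ => ∫ v, G (Complex.exp v) ∂(μ N : Measure ℂ)) atTop (𝓝 (∫ v, G (Complex.exp v) ∂(ρ : Measure ℂ))) :=
    h (G.compContinuous ⟨Complex.exp, Complex.continuous_exp⟩)
  -- the cutoffs
  have hchi : Tendsto (fun K : ℕ => ∫ v, chi K v ∂(ρ : Measure ℂ)) atTop (𝓝 1) := by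
    have e1 : (1:ℝ) = ∫ _v : ℂ, (1:ℝ) ∂(ρ : Measure ℂ) := by simp
    rw [e1]
    refine tendsto_integral_of_dominated_convergence (fun _ => 1) (fun K => (chi_cont K).aestronglyMeasurable) (integrable_const _)
      (fun K => Eventually.of_forall fun v => ?_) (Eventually.of_forall fun v => chi_lim v)
    rw [Real.norm_of_nonneg (chi_nn _ _)]
    exact chi_le _ _
  have hD : Tendsto (fun N : ℕ => (∫ v, G ((1 + v / ((N + 1 : ℕ) : ℂ)) ^ (N + 1)) ∂(μ N : Measure ℂ)) - ∫ v, G (Complex.exp v) ∂(μ N : Measure ℂ))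
      atTop (𝓝 0) := by
    rw [Metric.tendsto_nhds]
    intro ε hε
    obtain ⟨B, hB0, hB⟩ : ∃ B : ℝ, 0 ≤ B ∧ ∀ z, |G z| ≤ B := ⟨‖G‖, norm_nonneg _, fun z => G.norm_coe_le_norm z⟩
    obtain ⟨K, hK⟩ := (hchi.eventually (lt_mem_nhds (show 1 - ε / (4 * (2 * B + 1)) < 1 by linarith [show 0 < ε / (4 * (2 * B + 1)) by positivity]))).exists
    have hK2 := (h (BoundedContinuousFunction.ofNormedAddCommGroup (chi K) (chi_cont K) 1 (fun v => by
      rw [Real.norm_of_nonneg (chi_nn _ _)]; exact chi_le _ _))).eventually (lt_mem_nhds hK)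
    have hu := pow_unif (R := (K : ℝ) + 1) (by positivity) G.continuous (ε := ε / 4) (by positivity)
    filter_upwards [hK2, hu] with N g1 g2
    have g1' : 1 - ε / (4 * (2 * B + 1)) < ∫ v, chi K v ∂(μ N : Measure ℂ) := g1
    rw [Real.dist_eq, sub_zero]
    have c1 : Continuous fun v : ℂ => G ((1 + v / ((N + 1 : ℕ) : ℂ)) ^ (N + 1)) := G.continuous.comp (by fun_prop)
    have c2 : Continuous fun v : ℂ => G (Complex.exp v) := G.continuous.comp Complex.continuous_exp
    have i1 : Integrable (fun v : ℂ => G ((1 + v / ((N + 1 : ℕ) : ℂ)) ^ (N + 1))) (μ N : Measure ℂ) :=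
      (integrable_const B).mono c1.aestronglyMeasurable (Eventually.of_forall fun v => by
        rw [Real.norm_of_nonneg hB0]; exact hB _)
    have i2 : Integrable (fun v : ℂ => G (Complex.exp v)) (μ N : Measure ℂ) :=
      (integrable_const B).mono c2.aestronglyMeasurable (Eventually.of_forall fun v => by
        rw [Real.norm_of_nonneg hB0]; exact hB _)
    have i3 : Integrable (chi K) (μ N : Measure ℂ) :=
      (integrable_const (1:ℝ)).mono (chi_cont K).aestronglyMeasurable (Eventually.of_forall fun v => by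
        rw [Real.norm_of_nonneg (chi_nn _ _), norm_one]; exact chi_le _ _)
    have i4 : Integrable (fun v : ℂ => 2 * B * (1 - chi K v)) (μ N : Measure ℂ) :=
      ((integrable_const (1:ℝ)).sub i3).const_mul (2 * B)
    have i5 : Integrable (fun _ : ℂ => ε / 4) (μ N : Measure ℂ) := integrable_const _
    rw [← integral_sub i1 i2]
    have g3 : |∫ v, (G ((1 + v / ((N + 1 : ℕ) : ℂ)) ^ (N + 1)) - G (Complex.exp v)) ∂(μ N : Measure ℂ)| ≤
        ∫ v, (ε / 4 + 2 * B * (1 - chi K v)) ∂(μ N : Measure ℂ) := by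
      rw [← Real.norm_eq_abs]
      refine norm_integral_le_of_norm_le (i5.add i4) (Eventually.of_forall fun v => ?_)
      rw [Real.norm_eq_abs]
      show _ ≤ ε / 4 + 2 * B * (1 - chi K v)
      rcases le_or_gt ‖v‖ ((K : ℝ) + 1) with hv | hv
      · have h1 := g2 v hv
        have h2 : 0 ≤ 2 * B * (1 - chi K v) := mul_nonneg (by linarith) (by linarith [chi_le K v])
        linarith
      · rw [chi_zero hv.le]
        have h1 := abs_sub (G ((1 + v / ((N + 1 : ℕ) : ℂ)) ^ (N + 1))) (G (Complex.exp v))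
        have h2 := hB ((1 + v / ((N + 1 : ℕ) : ℂ)) ^ (N + 1))
        have h3 := hB (Complex.exp v)
        linarith
    have g4 : ∫ v, (ε / 4 + 2 * B * (1 - chi K v)) ∂(μ N : Measure ℂ) = ε / 4 + 2 * B * (1 - ∫ v, chi K v ∂(μ N : Measure ℂ)) := by
      rw [integral_add i5 i4, integral_const_mul, integral_sub (integrable_const (1:ℝ)) i3]
      simp
    rw [g4] at g3
    have g5 : 2 * B * (1 - ∫ v, chi K v ∂(μ N : Measure ℂ)) ≤ 2 * B * (ε / (4 * (2 * B + 1))) :=
      mul_le_mul_of_nonneg_left (by linarith) (by linarith)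
    have g6 : 2 * B * (ε / (4 * (2 * B + 1))) ≤ ε / 4 := by
      rw [← mul_div_assoc, div_le_div_iff₀ (by positivity) (by norm_num)]
      nlinarith
    linarith
  have h9 := hD.add hE
  rw [zero_add] at h9
  exact h9.congr fun N => by ring

/-- **The law of the exponential.** -/
theorem law_of_mixed {P : ℝ → Measure ℝ} (hP : ∀ T, IsFiniteMeasure (P T)) {X : ℝ → ℝ → ℂ} (hX : ∀ T, Measurable (X T))
    {k a : ℝ} (hk : 0 < k) (ha : 0 < a) {ρ : ProbabilityMeasure ℂ}
    (hρ : ∀ c : ℝ, Integrable (fun z : ℂ => Real.exp (c * ‖z‖)) (ρ : Measure ℂ))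
    (hint : ∀ N p : ℕ, 0 < N → (p : ℝ) < k * N → ∀ᶠ T in atTop, Integrable (fun t => ‖Complex.exp (p / N * X T t)‖ ^ 2) (P T))
    (h : ∀ N p q : ℕ, 0 < N → (p : ℝ) < k * N → (q : ℝ) < k * N →
      Tendsto (fun T => ∫ t, ee N p q (X T t) ∂(P T)) atTop (𝓝 (a * ∫ z, ee N p q z ∂(ρ : Measure ℂ))))
    (G : BoundedContinuousFunction ℂ ℝ) :
    Tendsto (fun T => ∫ t, G (Complex.exp (X T t)) ∂(P T)) atTop (𝓝 (a * ∫ z, G (Complex.exp z) ∂(ρ : Measure ℂ))) := by
  have _ := hP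
  obtain ⟨d, hd⟩ : ∃ d : ℕ → ℕ, d = fun N : ℕ => ⌊k * ((N : ℝ) + 1) / 2⌋₊ := ⟨_, rfl⟩
  have hdk : ∀ N i : ℕ, i ≤ d N → (i : ℝ) < k * ((N + 1 : ℕ) : ℝ) := by
    intro N i hi
    have h1 : (i : ℝ) ≤ k * ((N : ℝ) + 1) / 2 := by
      rw [hd] at hi
      exact (Nat.cast_le.mpr hi).trans (Nat.floor_le (by positivity))
    push_cast
    have : 0 < k * ((N : ℝ) + 1) := by positivity
    linarith
  have hdlim : ∀ i : ℕ, ∀ᶠ N in atTop, i ≤ d N := by
    intro i
    have h1 : Tendsto (fun N : ℕ => k * ((N : ℝ) + 1) / 2) atTop atTop :=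
      ((tendsto_atTop_add_const_right _ 1 tendsto_natCast_atTop_atTop).const_mul_atTop hk).atTop_div_const (by norm_num)
    filter_upwards [h1.eventually_ge_atTop (i : ℝ)] with N hN
    rw [hd]
    exact Nat.le_floor hN
  -- integrability of the exponential monomials
  have hee : ∀ N p q : ℕ, 0 < N → (p : ℝ) < k * N → (q : ℝ) < k * N → ∀ᶠ T in atTop, Integrable (fun t => ee N p q (X T t)) (P T) := by
    intro N p q hN hp hq
    filter_upwards [hint N p hN hp, hint N q hN hq] with T h1 h2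
    refine (h1.add h2).mono (((ee_cont N p q).measurable.comp (hX T)).aestronglyMeasurable) (Eventually.of_forall fun t => ?_)
    unfold ee
    rw [norm_mul, RCLike.norm_conj]
    simp only [Pi.add_apply]
    rw [Real.norm_of_nonneg (by positivity)]
    nlinarith [sq_nonneg (‖Complex.exp (p / N * X T t)‖ - ‖Complex.exp (q / N * X T t)‖), sq_nonneg (‖Complex.exp (p / N * X T t)‖ + ‖Complex.exp (q / N * X T t)‖),
      norm_nonneg (Complex.exp (p / N * X T t)), norm_nonneg (Complex.exp (q / N * X T t))]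
  -- the moments for fixed N
  have hmom : ∀ N i j : ℕ, i ≤ d N → j ≤ d N → Tendsto (fun T => ∫ t, mo i j (VN (N + 1) (X T t)) ∂(P T)) atTop
      (𝓝 (a * ∫ z, mo i j (VN (N + 1) z) ∂(ρ : Measure ℂ))) := by
    intro N i j hi hj
    have hpq : ∀ p ∈ Finset.range (i + 1), ∀ q ∈ Finset.range (j + 1), (p : ℝ) < k * ((N + 1 : ℕ) : ℝ) ∧ (q : ℝ) < k * ((N + 1 : ℕ) : ℝ) := by
      intro p hp q hq
      rw [Finset.mem_range] at hp hq
      exact ⟨hdk N p (by omega), hdk N q (by omega)⟩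
    have e1 : a * ∫ z, mo i j (VN (N + 1) z) ∂(ρ : Measure ℂ) =
        ∑ p ∈ Finset.range (i + 1), ∑ q ∈ Finset.range (j + 1), cf (N + 1) i j p q * (a * ∫ z, ee (N + 1) p q z ∂(ρ : Measure ℂ)) := by
      simp_rw [mo_VN]
      rw [integral_finsetSum]
      · rw [Finset.mul_sum]
        refine Finset.sum_congr rfl fun p _ => ?_
        rw [integral_finsetSum]
        · rw [Finset.mul_sum]
          refine Finset.sum_congr rfl fun q _ => ?_
          rw [integral_const_mul]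
          ring
        · exact fun q _ => (ee_int hρ _ _ _).const_mul _
      · exact fun p _ => integrable_finsetSum _ fun q _ => (ee_int hρ _ _ _).const_mul _
    rw [e1]
    have h1 : Tendsto (fun T => ∑ p ∈ Finset.range (i + 1), ∑ q ∈ Finset.range (j + 1), cf (N + 1) i j p q * ∫ t, ee (N + 1) p q (X T t) ∂(P T)) atTop
        (𝓝 (∑ p ∈ Finset.range (i + 1), ∑ q ∈ Finset.range (j + 1), cf (N + 1) i j p q * (a * ∫ z, ee (N + 1) p q z ∂(ρ : Measure ℂ)))) :=
      tendsto_finsetSum _ fun p hp => tendsto_finsetSum _ fun q hq => (h (N + 1) p q (Nat.succ_pos _) (hpq p hp q hq).1 (hpq p hp q hq).2).const_mul _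
    refine h1.congr' ?_
    have h2 : ∀ᶠ T in atTop, ∀ p ∈ Finset.range (i + 1), ∀ q ∈ Finset.range (j + 1), Integrable (fun t => ee (N + 1) p q (X T t)) (P T) := by
      rw [Finset.eventually_all]
      intro p hp
      rw [Finset.eventually_all]
      intro q hq
      exact hee (N + 1) p q (Nat.succ_pos _) (hpq p hp q hq).1 (hpq p hp q hq).2
    filter_upwards [h2] with T hT
    simp_rw [mo_VN]
    rw [integral_finsetSum]
    · refine Finset.sum_congr rfl fun p hp => ?_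
      rw [integral_finsetSum]
      · refine Finset.sum_congr rfl fun q hq => ?_
        rw [integral_const_mul]
      · exact fun q hq => (hT p hp q hq).const_mul _
    · exact fun p hp => integrable_finsetSum _ fun q hq => (hT p hp q hq).const_mul _
  -- integrability of the powers
  have hpw : ∀ N i : ℕ, i ≤ d N → ∀ᶠ T in atTop, Integrable (fun t => ‖VN (N + 1) (X T t)‖ ^ i) (P T) := by
    intro N i hi
    filter_upwards [hint (N + 1) i (Nat.succ_pos _) (hdk N i hi)] with T h1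
    have h2 : Integrable (fun t => ((N + 1 : ℕ) : ℝ) ^ i * (2 ^ i * (‖Complex.exp (i / ((N + 1 : ℕ) : ℂ) * X T t)‖ ^ 2 + 2))) (P T) :=
      ((h1.add (integrable_const (2:ℝ))).const_mul (2 ^ i)).const_mul _
    refine h2.mono ((((VN_cont _).measurable.comp (hX T)).norm.pow_const i).aestronglyMeasurable) (Eventually.of_forall fun t => ?_)
    rw [norm_pow, norm_norm, Real.norm_of_nonneg (by positivity)]
    unfold VN
    rw [norm_mul, mul_pow, Complex.norm_natCast]
    refine mul_le_mul_of_nonneg_left ?_ (by positivity)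
    obtain ⟨y, hy⟩ : ∃ y : ℝ, y = ‖Complex.exp (X T t / ((N + 1 : ℕ) : ℂ))‖ := ⟨_, rfl⟩
    have hy0 : 0 ≤ y := by rw [hy]; exact norm_nonneg _
    have e1 : ‖Complex.exp (i / ((N + 1 : ℕ) : ℂ) * X T t)‖ = y ^ i := by
      rw [hy, ← norm_pow, exp_pow_div]
    have h3 : ‖Complex.exp (X T t / ((N + 1 : ℕ) : ℂ)) - 1‖ ≤ y + 1 := by
      rw [hy]
      refine (norm_sub_le _ _).trans ?_
      rw [norm_one]
    have h4 : (y + 1) ^ i ≤ 2 ^ i * (y ^ i + 1) := by
      have h5 : y + 1 ≤ 2 * max y 1 := by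
        have := le_max_left y 1
        have := le_max_right y 1
        linarith
      calc (y + 1) ^ i ≤ (2 * max y 1) ^ i := pow_le_pow_left₀ (by linarith) h5 _
        _ = 2 ^ i * (max y 1) ^ i := mul_pow _ _ _
        _ ≤ 2 ^ i * (y ^ i + 1) := by
            refine mul_le_mul_of_nonneg_left ?_ (by positivity)
            rcases max_choice y 1 with h | h
            · rw [h]; linarith
            · rw [h, one_pow]; linarith [pow_nonneg hy0 i]
    have h6 : y ^ i + 1 ≤ (y ^ i) ^ 2 + 2 := by nlinarith [sq_nonneg (y ^ i - 1 / 2)]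
    rw [e1]
    calc ‖Complex.exp (X T t / ((N + 1 : ℕ) : ℂ)) - 1‖ ^ i ≤ (y + 1) ^ i := pow_le_pow_left₀ (norm_nonneg _) h3 _
      _ ≤ 2 ^ i * (y ^ i + 1) := h4
      _ ≤ 2 ^ i * ((y ^ i) ^ 2 + 2) := mul_le_mul_of_nonneg_left h6 (by positivity)
  -- the good heights
  have hQ : ∀ N : ℕ, ∀ᶠ T in atTop, (P T Set.univ ≠ 0) ∧ (∀ i ≤ d N, Integrable (fun t => ‖VN (N + 1) (X T t)‖ ^ i) (P T)) ∧
      ∀ i ≤ d N, ∀ j ≤ d N, ‖(∫ t, mo i j (VN (N + 1) (X T t)) ∂(P T)) - a * ∫ z, mo i j (VN (N + 1) z) ∂(ρ : Measure ℂ)‖ ≤ 1 / ((N : ℝ) + 1) := by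
    intro N
    have q1 : ∀ᶠ T in atTop, P T Set.univ ≠ 0 := by
      have h0 := hmom 0 0 0 (Nat.zero_le _) (Nat.zero_le _)
      have e0 : ∀ z, mo 0 0 z = 1 := fun z => by unfold mo; simp
      simp_rw [e0] at h0
      simp only [integral_const, mul_one, probReal_univ, Complex.real_smul, Complex.ofReal_one] at h0
      have ha' : (a : ℂ) ≠ 0 := by exact_mod_cast ha.ne'
      have h1 := h0.eventually_ne ha'
      filter_upwards [h1] with T hT h2
      apply hT
      rw [measureReal_def, h2]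
      simp
    have q2 : ∀ᶠ T in atTop, ∀ i ≤ d N, Integrable (fun t => ‖VN (N + 1) (X T t)‖ ^ i) (P T) := by
      have := (Finset.range (d N + 1)).eventually_all (l := atTop) (p := fun i T => Integrable (fun t => ‖VN (N + 1) (X T t)‖ ^ i) (P T))
      have h2 := this.mpr fun i hi => hpw N i (by rw [Finset.mem_range] at hi; omega)
      filter_upwards [h2] with T hT i hi
      exact hT i (Finset.mem_range.mpr (by omega))
    have q3 : ∀ᶠ T in atTop, ∀ i ∈ Finset.range (d N + 1), ∀ j ∈ Finset.range (d N + 1),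
        ‖(∫ t, mo i j (VN (N + 1) (X T t)) ∂(P T)) - a * ∫ z, mo i j (VN (N + 1) z) ∂(ρ : Measure ℂ)‖ ≤ 1 / ((N : ℝ) + 1) := by
      rw [Finset.eventually_all]
      intro i hi
      rw [Finset.eventually_all]
      intro j hj
      rw [Finset.mem_range] at hi hj
      have h1 := hmom N i j (by omega) (by omega)
      rw [Metric.tendsto_nhds] at h1
      filter_upwards [h1 (1 / ((N : ℝ) + 1)) (by positivity)] with T hT
      rw [dist_eq_norm] at hT
      exact hT.le
    filter_upwards [q1, q2, q3] with T h1 h2 h3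
    exact ⟨h1, h2, fun i hi j hj => h3 i (Finset.mem_range.mpr (by omega)) j (Finset.mem_range.mpr (by omega))⟩
  refine tendsto_of_subseq_tendsto fun ns hns => ?_
  have hsel : ∀ N : ℕ, ∃ n : ℕ, (P (ns n) Set.univ ≠ 0) ∧ (∀ i ≤ d N, Integrable (fun t => ‖VN (N + 1) (X (ns n) t)‖ ^ i) (P (ns n))) ∧
      ∀ i ≤ d N, ∀ j ≤ d N, ‖(∫ t, mo i j (VN (N + 1) (X (ns n) t)) ∂(P (ns n))) - a * ∫ z, mo i j (VN (N + 1) z) ∂(ρ : Measure ℂ)‖ ≤ 1 / ((N : ℝ) + 1) :=
    fun N => (hns.eventually (hQ N)).exists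
  choose ms hms using hsel
  refine ⟨ms, ?_⟩
  obtain ⟨S, hS⟩ : ∃ S : ℕ → ℝ, S = fun N => ns (ms N) := ⟨_, rfl⟩
  have hS1 : ∀ N, P (S N) Set.univ ≠ 0 := fun N => by rw [hS]; exact (hms N).1
  have hS2 : ∀ N, ∀ i ≤ d N, Integrable (fun t => ‖VN (N + 1) (X (S N) t)‖ ^ i) (P (S N)) := fun N => by rw [hS]; exact (hms N).2.1
  have hS3 : ∀ N, ∀ i ≤ d N, ∀ j ≤ d N, ‖(∫ t, mo i j (VN (N + 1) (X (S N) t)) ∂(P (S N))) - a * ∫ z, mo i j (VN (N + 1) z) ∂(ρ : Measure ℂ)‖ ≤ 1 / ((N : ℝ) + 1) :=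
    fun N => by rw [hS]; exact (hms N).2.2
  have hgoal : Tendsto (fun N => ∫ t, G (Complex.exp (X (S N) t)) ∂(P (S N))) atTop (𝓝 (a * ∫ z, G (Complex.exp z) ∂(ρ : Measure ℂ))) := by
    -- limits of the moments
    have hM : ∀ i j : ℕ, Tendsto (fun N => ∫ t, mo i j (VN (N + 1) (X (S N) t)) ∂(P (S N))) atTop (𝓝 (a * ∫ z, mo i j z ∂(ρ : Measure ℂ))) := by
      intro i j
      have h1 := (mo_lim hρ i j).const_mul (a : ℂ)
      have h2 : Tendsto (fun N => (∫ t, mo i j (VN (N + 1) (X (S N) t)) ∂(P (S N))) - a * ∫ z, mo i j (VN (N + 1) z) ∂(ρ : Measure ℂ)) atTop (𝓝 0) := by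
        rw [tendsto_zero_iff_norm_tendsto_zero]
        refine squeeze_zero' (Eventually.of_forall fun _ => norm_nonneg _) ?_ (tendsto_one_div_add_atTop_nhds_zero_nat (𝕜 := ℝ))
        filter_upwards [hdlim i, hdlim j] with N hi hj
        exact hS3 N i hi j hj
      have h3 := h2.add h1
      rw [zero_add] at h3
      exact h3.congr fun N => by ring
    -- the masses
    obtain ⟨m, hm⟩ : ∃ m : ℕ → ℝ, m = fun N => (P (S N) Set.univ).toReal := ⟨_, rfl⟩
    have hm0 : ∀ N, 0 < m N := by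
      intro N
      rw [hm]
      exact ENNReal.toReal_pos (hS1 N) (measure_ne_top _ _)
    have hma : Tendsto m atTop (𝓝 a) := by
      have h1 := hM 0 0
      have e0 : ∀ z, mo 0 0 z = 1 := fun z => by unfold mo; simp
      simp_rw [e0] at h1
      simp only [integral_const, mul_one, probReal_univ, Complex.real_smul, Complex.ofReal_one] at h1
      have h2 := (Complex.continuous_re.tendsto _).comp h1
      rw [Complex.ofReal_re] at h2
      rw [hm]
      exact h2
    -- the measures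
    have hprob : ∀ N, IsProbabilityMeasure ((P (S N) Set.univ)⁻¹ • P (S N)) := by
      intro N
      refine ⟨?_⟩
      rw [Measure.smul_apply, smul_eq_mul]
      exact ENNReal.inv_mul_cancel (hS1 N) (measure_ne_top _ _)
    have hmeas : ∀ N, Measurable fun t => VN (N + 1) (X (S N) t) := fun N => (VN_cont _).measurable.comp (hX _)
    obtain ⟨μ, hμ⟩ : ∃ μ : ℕ → ProbabilityMeasure ℂ, ∀ N, (μ N : Measure ℂ) =
        Measure.map (fun t => VN (N + 1) (X (S N) t)) ((P (S N) Set.univ)⁻¹ • P (S N)) := by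
      refine ⟨fun N => ⟨Measure.map (fun t => VN (N + 1) (X (S N) t)) ((P (S N) Set.univ)⁻¹ • P (S N)), ?_⟩, fun N => rfl⟩
      have _ := hprob N
      exact Measure.isProbabilityMeasure_map (hmeas N).aemeasurable
    have hintμ : ∀ {E : Type} [NormedAddCommGroup E] [NormedSpace ℝ E] (N : ℕ) (F : ℂ → E), Continuous F →
        ∫ v, F v ∂(μ N : Measure ℂ) = (m N)⁻¹ • ∫ t, F (VN (N + 1) (X (S N) t)) ∂(P (S N)) := by
      intro E _ _ N F hF
      rw [hμ, integral_map (hmeas N).aemeasurable hF.aestronglyMeasurable, integral_smul_measure, ENNReal.toReal_inv, hm]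
    have hweak : Tendsto μ atTop (𝓝 ρ) := by
      refine weak_of_moments ?_ hρ ?_
      · intro i
        filter_upwards [hdlim i] with N hN
        rw [hμ, integrable_map_measure (Continuous.aestronglyMeasurable (by fun_prop)) (hmeas N).aemeasurable]
        exact (hS2 N i hN).smul_measure (ENNReal.inv_ne_top.mpr (hS1 N))
      · intro i j
        have h1 : Tendsto (fun N => (m N)⁻¹ • ∫ t, mo i j (VN (N + 1) (X (S N) t)) ∂(P (S N))) atTop
            (𝓝 ((a : ℝ)⁻¹ • ((a : ℂ) * ∫ z, mo i j z ∂(ρ : Measure ℂ)))) := (hma.inv₀ ha.ne').smul (hM i j)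
        have e1 : (a : ℝ)⁻¹ • ((a : ℂ) * ∫ z, mo i j z ∂(ρ : Measure ℂ)) = ∫ z, mo i j z ∂(ρ : Measure ℂ) := by
          rw [Complex.real_smul]
          have : (a : ℂ) ≠ 0 := by exact_mod_cast ha.ne'
          push_cast
          field_simp
        rw [e1] at h1
        exact h1.congr fun N => (hintμ N _ (mo_cont i j)).symm
    have h1 := map_lim hweak G
    have h2 := hma.mul h1
    refine h2.congr fun N => ?_
    have e1 : ∫ v, G ((1 + v / ((N + 1 : ℕ) : ℂ)) ^ (N + 1)) ∂(μ N : Measure ℂ) = (m N)⁻¹ • ∫ t, G (Complex.exp (X (S N) t)) ∂(P (S N)) := by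
      rw [hintμ N (fun v => G ((1 + v / ((N + 1 : ℕ) : ℂ)) ^ (N + 1))) (G.continuous.comp (by fun_prop))]
      congr 2
      funext t
      congr 1
      unfold VN
      have hNc : (((N + 1 : ℕ) : ℂ)) ≠ 0 := by exact_mod_cast Nat.succ_ne_zero N
      rw [mul_div_cancel_left₀ _ hNc, add_sub_cancel, ← Complex.exp_nat_mul]
      congr 1
      field_simp
    rw [e1, smul_eq_mul, mul_inv_cancel_left₀ (hm0 N).ne']
  rw [hS] at hgoal
  exact hgoal

end Pool.Agent.X111.JD
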