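import Mathlib

set_option autoImplicit false

/-! Convergence of the moments of complex random variables implies weak convergence. -/

namespace Pool.Agent.X111.JD

open MeasureTheory ProbabilityTheory Filter Topology

/-- the remainder of the exponential series on the imaginary axis -/
lemma exp_rem_nn (D : ℕ) : ∀ θ : ℝ, 0 ≤ θ →
    ‖Complex.exp (Complex.I * θ) - ∑ d ∈ Finset.range D, (Complex.I * θ) ^ d / d.factorial‖ ≤ θ ^ D / D.factorial := by
  induction D with
  | zero =>
    intro θ _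
    have : ‖Complex.exp (Complex.I * θ)‖ = 1 := by rw [mul_comm]; exact Complex.norm_exp_ofReal_mul_I θ
    simp [this]
  | succ D ih =>
    intro θ hθ
    have hd : ∀ x : ℝ, HasDerivAt (fun x : ℝ => Complex.exp (Complex.I * x) - ∑ d ∈ Finset.range (D + 1), (Complex.I * x) ^ d / d.factorial)
        (Complex.I * (Complex.exp (Complex.I * x) - ∑ d ∈ Finset.range D, (Complex.I * x) ^ d / d.factorial)) x := by
      intro x
      have h1 : HasDerivAt (fun x : ℝ => Complex.I * (x : ℂ)) Complex.I x := by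
        simpa using (Complex.ofRealCLM.hasDerivAt (x := x)).const_mul Complex.I
      have h2 := h1.cexp
      have h3 : ∀ d : ℕ, HasDerivAt (fun x : ℝ => (Complex.I * (x : ℂ)) ^ (d + 1) / ((d + 1).factorial : ℂ))
          (Complex.I * ((Complex.I * x) ^ d / d.factorial)) x := by
        intro d
        have h4 := (h1.pow (d + 1)).div_const (((d + 1).factorial : ℕ) : ℂ)
        refine h4.congr_deriv ?_
        rw [Nat.factorial_succ]
        push_cast
        have : (d.factorial : ℂ) ≠ 0 := by exact_mod_cast Nat.factorial_ne_zero d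
        have h5 : ((d : ℂ) + 1) ≠ 0 := by exact_mod_cast Nat.succ_ne_zero d
        field_simp
      have h5 : HasDerivAt (fun x : ℝ => ∑ d ∈ Finset.range D, (Complex.I * (x : ℂ)) ^ (d + 1) / ((d + 1).factorial : ℂ))
          (∑ d ∈ Finset.range D, Complex.I * ((Complex.I * x) ^ d / d.factorial)) x := HasDerivAt.fun_sum fun d _ => h3 d
      have h6 := h2.sub (h5.add_const 1)
      refine (h6.congr_deriv ?_).congr_of_eventuallyEq (Eventually.of_forall fun y => ?_)
      · rw [mul_sub, Finset.mul_sum]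
        ring
      · show Complex.exp (Complex.I * y) - ∑ d ∈ Finset.range (D + 1), (Complex.I * (y : ℂ)) ^ d / d.factorial =
          Complex.exp (Complex.I * y) - (∑ d ∈ Finset.range D, (Complex.I * (y : ℂ)) ^ (d + 1) / ((d + 1).factorial : ℂ) + 1)
        rw [Finset.sum_range_succ']
        simp
    have hB : ∀ x : ℝ, HasDerivAt (fun x : ℝ => x ^ (D + 1) / (D + 1).factorial) (x ^ D / D.factorial) x := by
      intro x
      have h1 := ((hasDerivAt_pow (D + 1) x).div_const (((D + 1).factorial : ℕ) : ℝ))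
      refine h1.congr_deriv ?_
      rw [Nat.factorial_succ]
      push_cast
      have : (D.factorial : ℝ) ≠ 0 := by exact_mod_cast Nat.factorial_ne_zero D
      have h5 : ((D : ℝ) + 1) ≠ 0 := by positivity
      field_simp
    refine image_norm_le_of_norm_deriv_right_le_deriv_boundary (a := 0) (b := θ)
      (f := fun x : ℝ => Complex.exp (Complex.I * x) - ∑ d ∈ Finset.range (D + 1), (Complex.I * x) ^ d / d.factorial)
      (f' := fun x => Complex.I * (Complex.exp (Complex.I * x) - ∑ d ∈ Finset.range D, (Complex.I * x) ^ d / d.factorial))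
      (B := fun x => x ^ (D + 1) / (D + 1).factorial) (B' := fun x => x ^ D / D.factorial) ?_ ?_ ?_ ?_ ?_ ⟨hθ, le_rfl⟩
    · exact fun x _ => (hd x).continuousAt.continuousWithinAt
    · exact fun x _ => (hd x).hasDerivWithinAt
    · simp [Finset.sum_range_succ']
    · exact fun x => hB x
    · intro x hx
      rw [norm_mul, Complex.norm_I, one_mul]
      exact ih x hx.1

lemma exp_rem (D : ℕ) (θ : ℝ) :
    ‖Complex.exp (Complex.I * θ) - ∑ d ∈ Finset.range D, (Complex.I * θ) ^ d / d.factorial‖ ≤ |θ| ^ D / D.factorial := by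
  rcases le_total 0 θ with h | h
  · rw [abs_of_nonneg h]
    exact exp_rem_nn D θ h
  · have h1 := exp_rem_nn D (-θ) (by linarith)
    rw [abs_of_nonpos h]
    refine le_trans (le_of_eq ?_) h1
    rw [← Complex.norm_conj]
    congr 1
    rw [map_sub, ← Complex.exp_conj, map_mul, Complex.conj_I, Complex.conj_ofReal, map_sum]
    congr 1
    · congr 1
      push_cast
      ring
    · refine Finset.sum_congr rfl fun d _ => ?_
      rw [map_div₀, map_pow, map_mul, Complex.conj_I, Complex.conj_ofReal, Complex.conj_natCast]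
      congr 2
      push_cast
      ring

/-- the monomials -/
noncomputable def mo (i j : ℕ) (z : ℂ) : ℂ := z ^ i * (starRingEnd ℂ) z ^ j

lemma mo_cont (i j : ℕ) : Continuous (mo i j) := by
  unfold mo
  exact (continuous_pow i).mul (Complex.continuous_conj.pow j)

lemma mo_norm (i j : ℕ) (z : ℂ) : ‖mo i j z‖ = ‖z‖ ^ (i + j) := by
  unfold mo
  rw [norm_mul, norm_pow, norm_pow, RCLike.norm_conj, pow_add]

/-- powers of the inner product -/
lemma inner_pow (z ξ : ℂ) (d : ℕ) : (((inner ℝ z ξ : ℝ) : ℂ)) ^ d =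
    ∑ a ∈ Finset.range (d + 1), ((1 / 2) ^ d * (starRingEnd ℂ) ξ ^ a * ξ ^ (d - a) * (d.choose a)) * mo a (d - a) z := by
  have h1 : ((inner ℝ z ξ : ℝ) : ℂ) = 1 / 2 * (z * (starRingEnd ℂ) ξ + (starRingEnd ℂ) z * ξ) := by
    rw [Complex.inner]
    apply Complex.ext
    · simp
      ring
    · simp
      ring
  rw [h1, mul_pow, add_pow, Finset.mul_sum]
  refine Finset.sum_congr rfl fun a _ => ?_
  unfold mo
  rw [mul_pow, mul_pow]
  ring

lemma int_mo {μ : Measure ℂ} {i j : ℕ} (h : Integrable (fun z : ℂ => ‖z‖ ^ (i + j)) μ) : Integrable (mo i j) μ := by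
  refine h.mono (mo_cont i j).aestronglyMeasurable (Eventually.of_forall fun z => ?_)
  rw [mo_norm, norm_pow, norm_norm]

lemma even_mo (m : ℕ) (z : ℂ) : ((‖z‖ ^ (2 * m) : ℝ) : ℂ) = mo m m z := by
  unfold mo
  rw [← mul_pow, Complex.mul_conj, Complex.normSq_eq_norm_sq, pow_mul]
  push_cast
  rfl

/-- the error of the characteristic function -/
lemma char_err (μ : ProbabilityMeasure ℂ) (ξ : ℂ) (D : ℕ) (h : ∀ i ≤ D, Integrable (fun z : ℂ => ‖z‖ ^ i) (μ : Measure ℂ)) :
    ‖charFun (μ : Measure ℂ) ξ - ∑ d ∈ Finset.range D, ∑ a ∈ Finset.range (d + 1),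
      (Complex.I ^ d / d.factorial * ((1 / 2) ^ d * (starRingEnd ℂ) ξ ^ a * ξ ^ (d - a) * (d.choose a))) * ∫ z, mo a (d - a) z ∂(μ : Measure ℂ)‖ ≤
      ‖ξ‖ ^ D / D.factorial * ∫ z, ‖z‖ ^ D ∂(μ : Measure ℂ) := by
  have hmo : ∀ d < D, ∀ a ∈ Finset.range (d + 1), Integrable (mo a (d - a)) (μ : Measure ℂ) := by
    intro d hd a ha
    rw [Finset.mem_range] at ha
    refine int_mo ?_
    have : a + (d - a) = d := by omega
    rw [this]
    exact h d hd.le
  have e1 : ∑ d ∈ Finset.range D, ∑ a ∈ Finset.range (d + 1),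
      (Complex.I ^ d / d.factorial * ((1 / 2) ^ d * (starRingEnd ℂ) ξ ^ a * ξ ^ (d - a) * (d.choose a))) * ∫ z, mo a (d - a) z ∂(μ : Measure ℂ) =
      ∫ z, ∑ d ∈ Finset.range D, (Complex.I * ((inner ℝ z ξ : ℝ) : ℂ)) ^ d / d.factorial ∂(μ : Measure ℂ) := by
    rw [integral_finsetSum]
    · refine Finset.sum_congr rfl fun d hd => ?_
      rw [Finset.mem_range] at hd
      have e2 : ∀ z : ℂ, (Complex.I * ((inner ℝ z ξ : ℝ) : ℂ)) ^ d / d.factorial = ∑ a ∈ Finset.range (d + 1),
          (Complex.I ^ d / d.factorial * ((1 / 2) ^ d * (starRingEnd ℂ) ξ ^ a * ξ ^ (d - a) * (d.choose a))) * mo a (d - a) z := by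
        intro z
        rw [mul_pow, inner_pow, Finset.mul_sum, Finset.sum_div]
        refine Finset.sum_congr rfl fun a _ => ?_
        ring
      simp_rw [e2]
      rw [integral_finsetSum]
      · refine Finset.sum_congr rfl fun a _ => ?_
        rw [integral_const_mul]
      · exact fun a ha => (hmo d hd a ha).const_mul _
    · intro d hd
      rw [Finset.mem_range] at hd
      have e2 : ∀ z : ℂ, (Complex.I * ((inner ℝ z ξ : ℝ) : ℂ)) ^ d / d.factorial = ∑ a ∈ Finset.range (d + 1),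
          (Complex.I ^ d / d.factorial * ((1 / 2) ^ d * (starRingEnd ℂ) ξ ^ a * ξ ^ (d - a) * (d.choose a))) * mo a (d - a) z := by
        intro z
        rw [mul_pow, inner_pow, Finset.mul_sum, Finset.sum_div]
        refine Finset.sum_congr rfl fun a _ => ?_
        ring
      simp_rw [e2]
      exact integrable_finsetSum _ fun a ha => (hmo d hd a ha).const_mul _
  rw [e1, charFun_apply]
  have i1 : Integrable (fun z : ℂ => Complex.exp (((inner ℝ z ξ : ℝ) : ℂ) * Complex.I)) (μ : Measure ℂ) := by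
    refine (integrable_const (1:ℝ)).mono ?_ (Eventually.of_forall fun z => ?_)
    · exact (Complex.continuous_exp.comp ((Complex.continuous_ofReal.comp (continuous_id.inner continuous_const)).mul continuous_const)).aestronglyMeasurable
    · rw [Complex.norm_exp_ofReal_mul_I]
      simp
  have i2 : Integrable (fun z : ℂ => ∑ d ∈ Finset.range D, (Complex.I * ((inner ℝ z ξ : ℝ) : ℂ)) ^ d / d.factorial) (μ : Measure ℂ) := by
    refine integrable_finsetSum _ fun d hd => ?_
    rw [Finset.mem_range] at hd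
    have e2 : ∀ z : ℂ, (Complex.I * ((inner ℝ z ξ : ℝ) : ℂ)) ^ d / d.factorial = ∑ a ∈ Finset.range (d + 1),
        (Complex.I ^ d / d.factorial * ((1 / 2) ^ d * (starRingEnd ℂ) ξ ^ a * ξ ^ (d - a) * (d.choose a))) * mo a (d - a) z := by
      intro z
      rw [mul_pow, inner_pow, Finset.mul_sum, Finset.sum_div]
      refine Finset.sum_congr rfl fun a _ => ?_
      ring
    simp_rw [e2]
    exact integrable_finsetSum _ fun a ha => (hmo d hd a ha).const_mul _
  rw [← integral_sub i1 i2, ← integral_const_mul]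
  refine norm_integral_le_of_norm_le ((h D le_rfl).const_mul _) (Eventually.of_forall fun z => ?_)
  rw [mul_comm (((inner ℝ z ξ : ℝ) : ℂ)) Complex.I]
  refine (exp_rem D _).trans ?_
  have h1 : |(inner ℝ z ξ : ℝ)| ≤ ‖z‖ * ‖ξ‖ := abs_real_inner_le_norm z ξ
  calc |(inner ℝ z ξ : ℝ)| ^ D / D.factorial ≤ (‖z‖ * ‖ξ‖) ^ D / D.factorial := by gcongr
    _ = ‖ξ‖ ^ D / D.factorial * ‖z‖ ^ D := by rw [mul_pow]; ring

/-- the theorem on moments -/
theorem weak_of_moments {μ : ℕ → ProbabilityMeasure ℂ} {ν : ProbabilityMeasure ℂ}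
    (hint : ∀ i : ℕ, ∀ᶠ n in atTop, Integrable (fun z : ℂ => ‖z‖ ^ i) (μ n : Measure ℂ))
    (hν : ∀ c : ℝ, Integrable (fun z : ℂ => Real.exp (c * ‖z‖)) (ν : Measure ℂ))
    (hm : ∀ i j : ℕ, Tendsto (fun n => ∫ z, mo i j z ∂(μ n : Measure ℂ)) atTop (𝓝 (∫ z, mo i j z ∂(ν : Measure ℂ)))) :
    Tendsto μ atTop (𝓝 ν) := by
  rw [ProbabilityMeasure.tendsto_iff_tendsto_charFun]
  intro ξ
  have hν1 : ∀ i : ℕ, Integrable (fun z : ℂ => ‖z‖ ^ i) (ν : Measure ℂ) := by
    intro i
    have h1 := (hν 1).const_mul (i.factorial : ℝ)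
    refine h1.mono (continuous_norm.pow i).aestronglyMeasurable (Eventually.of_forall fun z => ?_)
    rw [norm_pow, norm_norm, norm_mul, Real.norm_of_nonneg (Real.exp_pos _).le, one_mul]
    have h2 := Real.pow_div_factorial_le_exp ‖z‖ (norm_nonneg z) i
    rw [div_le_iff₀ (by positivity)] at h2
    simp only [Real.norm_natCast]
    linarith
  -- the tails
  have htail : Tendsto (fun m : ℕ => ‖ξ‖ ^ (2 * m) / (2 * m).factorial * ∫ z, ‖z‖ ^ (2 * m) ∂(ν : Measure ℂ)) atTop (𝓝 0) := by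
    have h1 : ∀ m : ℕ, ‖ξ‖ ^ (2 * m) / (2 * m).factorial * ∫ z, ‖z‖ ^ (2 * m) ∂(ν : Measure ℂ) =
        ∫ z, (‖ξ‖ * ‖z‖) ^ (2 * m) / (2 * m).factorial ∂(ν : Measure ℂ) := by
      intro m
      rw [← integral_const_mul]
      refine integral_congr_ae (Eventually.of_forall fun z => ?_)
      show ‖ξ‖ ^ (2 * m) / (2 * m).factorial * ‖z‖ ^ (2 * m) = (‖ξ‖ * ‖z‖) ^ (2 * m) / (2 * m).factorial
      rw [mul_pow]
      ring
    simp_rw [h1]
    have h2 : (0:ℝ) = ∫ _z : ℂ, (0:ℝ) ∂(ν : Measure ℂ) := by simp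
    rw [h2]
    refine tendsto_integral_of_dominated_convergence (fun z => Real.exp (‖ξ‖ * ‖z‖)) ?_ (hν ‖ξ‖) ?_ ?_
    · intro m
      exact (((continuous_const.mul continuous_norm).pow _).div_const _).aestronglyMeasurable
    · intro m
      refine Eventually.of_forall fun z => ?_
      rw [Real.norm_of_nonneg (by positivity)]
      exact Real.pow_div_factorial_le_exp _ (by positivity) _
    · refine Eventually.of_forall fun z => ?_
      have h3 := FloorSemiring.tendsto_pow_div_factorial_atTop (‖ξ‖ * ‖z‖)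
      exact h3.comp (tendsto_id.const_mul_atTop' (by norm_num : 0 < 2))
  rw [Metric.tendsto_atTop']
  intro ε hε
  obtain ⟨m, hm1⟩ := ((htail.eventually (gt_mem_nhds (by positivity : (0:ℝ) < ε / 4)))).exists
  obtain ⟨D, hD⟩ : ∃ D : ℕ, D = 2 * m := ⟨_, rfl⟩
  rw [← hD] at hm1
  -- convergence of the main parts
  have hmain : Tendsto (fun n => ∑ d ∈ Finset.range D, ∑ a ∈ Finset.range (d + 1),
      (Complex.I ^ d / d.factorial * ((1 / 2) ^ d * (starRingEnd ℂ) ξ ^ a * ξ ^ (d - a) * (d.choose a))) * ∫ z, mo a (d - a) z ∂(μ n : Measure ℂ)) atTop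
      (𝓝 (∑ d ∈ Finset.range D, ∑ a ∈ Finset.range (d + 1),
      (Complex.I ^ d / d.factorial * ((1 / 2) ^ d * (starRingEnd ℂ) ξ ^ a * ξ ^ (d - a) * (d.choose a))) * ∫ z, mo a (d - a) z ∂(ν : Measure ℂ))) :=
    tendsto_finsetSum _ fun d _ => tendsto_finsetSum _ fun a _ => (hm a (d - a)).const_mul _
  have hlast : Tendsto (fun n => ‖ξ‖ ^ D / D.factorial * ∫ z, ‖z‖ ^ D ∂(μ n : Measure ℂ)) atTop
      (𝓝 (‖ξ‖ ^ D / D.factorial * ∫ z, ‖z‖ ^ D ∂(ν : Measure ℂ))) := by
    refine Tendsto.const_mul _ ?_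
    have h1 := (Complex.continuous_re.tendsto _).comp (hm m m)
    have h2 : ∀ κ : Measure ℂ, (∫ z, mo m m z ∂κ).re = ∫ z, ‖z‖ ^ D ∂κ := by
      intro κ
      have : ∀ z : ℂ, mo m m z = ((‖z‖ ^ D : ℝ) : ℂ) := fun z => by rw [hD, even_mo]
      simp_rw [this]
      rw [integral_complex_ofReal, Complex.ofReal_re]
    rw [h2] at h1
    refine h1.congr fun n => ?_
    exact h2 _
  have hall : ∀ᶠ n in atTop, ∀ i ≤ D, Integrable (fun z : ℂ => ‖z‖ ^ i) (μ n : Measure ℂ) := by
    have := (Finset.range (D + 1)).eventually_all (l := atTop) (p := fun i n => Integrable (fun z : ℂ => ‖z‖ ^ i) (μ n : Measure ℂ))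
    have h2 := this.mpr fun i _ => hint i
    filter_upwards [h2] with n hn i hi
    exact hn i (Finset.mem_range.mpr (by omega))
  rw [Metric.tendsto_nhds] at hmain
  have h5 := hmain (ε / 4) (by positivity)
  have h6 := hlast.eventually (gt_mem_nhds (show _ < ε / 4 from hm1))
  obtain ⟨N, hN⟩ := eventually_atTop.mp (hall.and (h5.and h6))
  refine ⟨N, fun n hn => ?_⟩
  obtain ⟨g1, g2, g3⟩ := hN n hn.le
  have e1 := char_err (μ n) ξ D g1
  have e2 := char_err ν ξ D fun i _ => hν1 i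
  rw [dist_eq_norm] at g2 ⊢
  rw [← norm_neg] at e2
  generalize hA : (∑ d ∈ Finset.range D, ∑ a ∈ Finset.range (d + 1),
      (Complex.I ^ d / d.factorial * ((1 / 2) ^ d * (starRingEnd ℂ) ξ ^ a * ξ ^ (d - a) * (d.choose a))) * ∫ z, mo a (d - a) z ∂(μ n : Measure ℂ)) = A at *
  generalize hB : (∑ d ∈ Finset.range D, ∑ a ∈ Finset.range (d + 1),
      (Complex.I ^ d / d.factorial * ((1 / 2) ^ d * (starRingEnd ℂ) ξ ^ a * ξ ^ (d - a) * (d.choose a))) * ∫ z, mo a (d - a) z ∂(ν : Measure ℂ)) = B at *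
  have e3 : charFun (μ n : Measure ℂ) ξ - charFun (ν : Measure ℂ) ξ =
      (charFun (μ n : Measure ℂ) ξ - A) + (A - B) + -(charFun (ν : Measure ℂ) ξ - B) := by ring
  rw [e3]
  calc _ ≤ ‖charFun (μ n : Measure ℂ) ξ - A‖ + ‖A - B‖ + ‖-(charFun (ν : Measure ℂ) ξ - B)‖ := norm_add₃_le
    _ < ε := by linarith

end Pool.Agent.X111.JD
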