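import Pool.Agent.X111.JD.Gau
import Pool.Agent.X111.DM.Ker

set_option autoImplicit false

/-! The law of the ratio of two values of zeta on a line near the critical line, under the moment measure. -/

namespace Pool.Agent.X111.JD

open MeasureTheory ProbabilityTheory Filter Topology
open Pool.Agent.Y755
open Pool.Agent.Y753.NL
open Pool.Agent.Y753.SHR
open Pool.Agent.H306R2 (aF aF_pos)

/-- the value of zeta -/
noncomputable def zc (δ a t : ℝ) : ℂ := riemannZeta (1 / 2 + δ + ((t + a * δ : ℝ) : ℂ) * Complex.I)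

lemma zc_norm (δ a t : ℝ) : ‖zc δ a t‖ = za δ a t := rfl

lemma zc_cont {δ : ℝ} (hδ : δ < 1 / 2) (a : ℝ) : Continuous (zc δ a) := by
  rw [continuous_iff_continuousAt]
  intro t
  unfold zc
  have h1 : (1 / 2 + δ + ((t + a * δ : ℝ) : ℂ) * Complex.I : ℂ) ≠ 1 := by
    intro h
    have := congrArg Complex.re h
    simp at this
    norm_num at this
    linarith
  have h2 : ContinuousAt (fun s : ℂ => riemannZeta s) (1 / 2 + δ + ((t + a * δ : ℝ) : ℂ) * Complex.I) :=
    (differentiableAt_riemannZeta h1).continuousAt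
  exact h2.comp (f := fun t : ℝ => (1 / 2 + δ + ((t + a * δ : ℝ) : ℂ) * Complex.I : ℂ)) (by fun_prop)

/-- the mean of the limit law -/
noncomputable def mu (k h : ℝ) : ℂ := -k * Complex.log (1 + Complex.I * h / 2)

/-- its standard deviation -/
noncomputable def sd (h : ℝ) : ℝ := Real.sqrt (Real.log (1 + h ^ 2 / 4))

lemma sd_sq (h : ℝ) : sd h ^ 2 = Real.log (1 + h ^ 2 / 4) := by
  unfold sd
  rw [Real.sq_sqrt]
  exact Real.log_nonneg (by nlinarith [sq_nonneg h])

lemma log_conj_add (h : ℝ) : Complex.log (1 + Complex.I * h / 2) + (starRingEnd ℂ) (Complex.log (1 + Complex.I * h / 2)) =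
    ((Real.log (1 + h ^ 2 / 4) : ℝ) : ℂ) := by
  rw [Complex.add_conj, Complex.log_re]
  have h1 : ‖(1 + Complex.I * h / 2 : ℂ)‖ ^ 2 = 1 + h ^ 2 / 4 := by
    rw [← Complex.normSq_eq_norm_sq, Complex.normSq_apply]
    simp
    ring
  have h2 : Real.log (1 + h ^ 2 / 4) = 2 * Real.log ‖(1 + Complex.I * h / 2 : ℂ)‖ := by
    rw [← h1, Real.log_pow]
    norm_num
  rw [h2]

lemma log_conj_eq (h : ℝ) : (starRingEnd ℂ) (Complex.log (1 + Complex.I * h / 2)) = Complex.log (1 - Complex.I * h / 2) := by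
  rw [← Complex.log_conj]
  · congr 1
    simp only [map_add, map_one, map_div₀, map_mul, Complex.conj_I, Complex.conj_ofReal, map_ofNat]
    ring
  · intro h1
    rw [Complex.arg_eq_pi_iff] at h1
    have := h1.1
    simp at this
    linarith

/-- the product formula -/
lemma prod_form (k h x y : ℝ) : (1 + Complex.I * ((-h : ℝ) : ℂ) / 2) ^ (-(((k - x) * y : ℝ) : ℂ)) * (1 + Complex.I * (h : ℂ) / 2) ^ (-((x * (k - y) : ℝ) : ℂ)) =
    Complex.exp (x * mu k h + y * (starRingEnd ℂ) (mu k h) + (sd h : ℂ) ^ 2 * x * y) := by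
  have hne : ∀ h : ℝ, (1 + Complex.I * (h : ℂ) / 2 : ℂ) ≠ 0 := by
    intro h h1
    have := congrArg Complex.re h1
    simp at this
  rw [Complex.cpow_def_of_ne_zero (hne _), Complex.cpow_def_of_ne_zero (hne _), ← Complex.exp_add]
  congr 1
  have e1 : (1 + Complex.I * ((-h : ℝ) : ℂ) / 2 : ℂ) = 1 - Complex.I * h / 2 := by push_cast; ring
  rw [e1, ← log_conj_eq]
  have e2 : ((sd h : ℂ)) ^ 2 = Complex.log (1 + Complex.I * h / 2) + (starRingEnd ℂ) (Complex.log (1 + Complex.I * h / 2)) := by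
    rw [log_conj_add, ← sd_sq]
    push_cast
    rfl
  rw [e2]
  unfold mu
  simp only [map_mul, map_neg, Complex.conj_ofReal]
  push_cast
  ring

/-- the exponents and the points of a factor -/
noncomputable def kap (k : ℝ) (N p : ℕ) : Fin 2 → ℝ := if p = 0 then ![k / 2, k / 2] else ![k - p / N, p / N]
noncomputable def pts (u0 u1 : ℝ) (p : ℕ) : Fin 2 → ℝ := if p = 0 then ![u0, u0] else ![u0, u1]

lemma kap_sum (k : ℝ) (N p : ℕ) : ∑ j, kap k N p j = k := by
  unfold kap
  split_ifs <;> simp [Fin.sum_univ_two]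

/-- the product over the pairs -/
lemma prod_pairs (k u0 u1 : ℝ) (N p q : ℕ) :
    ∏ j, ∏ i, (1 + Complex.I * ((pts u0 u1 p j - pts u0 u1 q i : ℝ) : ℂ) / 2) ^ (-((kap k N p j * kap k N q i : ℝ) : ℂ)) =
    Complex.exp (((p / N : ℝ) : ℂ) * mu k (u1 - u0) + ((q / N : ℝ) : ℂ) * (starRingEnd ℂ) (mu k (u1 - u0)) + (sd (u1 - u0) : ℂ) ^ 2 * ((p / N : ℝ) : ℂ) * ((q / N : ℝ) : ℂ)) := by
  rw [← prod_form]
  have hne : ∀ h : ℝ, (1 + Complex.I * (h : ℂ) / 2 : ℂ) ≠ 0 := by
    intro h h1
    have := congrArg Complex.re h1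
    simp at this
  have e1 : u0 - u1 = -(u1 - u0) := by ring
  have one : (1 + Complex.I * (((0:ℝ)) : ℂ) / 2 : ℂ) = 1 := by simp
  unfold kap pts
  by_cases hp : p = 0
  · by_cases hq : q = 0
    · simp only [hp, hq, if_true, Fin.prod_univ_two, Matrix.cons_val_zero, Matrix.cons_val_one, sub_self, one, Complex.one_cpow, one_mul]
      simp
    · simp only [hp, hq, if_true, if_false, Fin.prod_univ_two, Matrix.cons_val_zero, Matrix.cons_val_one, sub_self, one, Complex.one_cpow, one_mul, e1]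
      rw [← Complex.cpow_add _ _ (hne _)]
      simp
      congr 1
      ring
  · by_cases hq : q = 0
    · simp only [hp, hq, if_true, if_false, Fin.prod_univ_two, Matrix.cons_val_zero, Matrix.cons_val_one, sub_self, one, Complex.one_cpow, one_mul]
      rw [← Complex.cpow_add _ _ (hne _)]
      simp
      congr 1
      ring
    · simp only [hp, hq, if_false, Fin.prod_univ_two, Matrix.cons_val_zero, Matrix.cons_val_one, sub_self, one, Complex.one_cpow, one_mul, mul_one, e1]

end Pool.Agent.X111.JD
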